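import Pool.Agent.Helper80.EC_F.Goals

/-!
# MP_ecc237_nt, PART F, packet Z3
-/

set_option autoImplicit false

open MeasureTheory Filter Topology Set

namespace EC237.PF.PkZ3

theorem chi_one (j : ℕ) : chi (((2 * (3 * j) : ℕ) : ℤ) + 1) = 1 := by
  unfold chi
  rw [if_pos (by omega)]

theorem chi_three (j : ℕ) : chi (((2 * (1 + 3 * j) : ℕ) : ℤ) + 1) = 0 := by
  unfold chi
  rw [if_neg (by omega), if_neg (by omega)]

theorem chi_five (j : ℕ) : chi (((2 * (2 + 3 * j) : ℕ) : ℤ) + 1) = -1 := by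
  unfold chi
  rw [if_neg (by omega), if_pos (by omega)]

theorem chi_two (k : ℕ) : chi (((2 * k + 1 : ℕ) : ℤ) + 1) = -chi ((k : ℤ) + 1) := by
  unfold chi
  rcases (by omega : ((k:ℤ) + 1) % 3 = 0 ∨ ((k:ℤ) + 1) % 3 = 1 ∨ ((k:ℤ) + 1) % 3 = 2) with
    h | h | h
  · rw [if_neg (by omega), if_neg (by omega), if_neg (by omega), if_neg (by omega)]
    simp
  · rw [if_neg (by omega), if_pos (by omega), if_pos (by omega)]
  · rw [if_pos (by omega), if_neg (by omega), if_pos (by omega)]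
    simp

/-- the terms of the `L`-series -/
noncomputable def g (n : ℕ) : ℝ := chi ((n:ℤ) + 1) / ((n:ℝ) + 1) ^ 3

theorem g_odd (k : ℕ) : g (2 * k + 1) = -(1/8) * g k := by
  unfold g
  rw [chi_two]
  push_cast
  have h : ((k:ℝ) + 1) ≠ 0 := by positivity
  have h2 : (2 * (k:ℝ) + 1 + 1) = 2 * (k + 1) := by ring
  rw [h2, mul_pow]
  field_simp
  ring

theorem thm (h1 : G_L3) : EC237.PF.G_Z3 := by
  set L : ℝ := 4 * Real.pi ^ 3 / (81 * Real.sqrt 3) with hL
  have hg : HasSum g L := h1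
  have hgs : Summable g := hg.summable
  have he : Summable (fun k : ℕ => g (2 * k)) :=
    hgs.comp_injective (fun a b h => by simpa using h)
  have ho : HasSum (fun k : ℕ => g (2 * k + 1)) (-(1/8) * L) := by
    have h := hg.mul_left (-(1/8) : ℝ)
    have e : (fun k : ℕ => g (2 * k + 1)) = fun k => -(1/8) * g k := funext g_odd
    rw [e]
    exact h
  have hsum : (∑' k : ℕ, g (2 * k)) = 9 / 8 * L := by
    have h := tsum_even_add_odd he ho.summable
    rw [ho.tsum_eq, hg.tsum_eq] at h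
    linarith
  have hres := Nat.sumByResidueClasses he 3
  have e3 : (∑ j : ZMod 3, ∑' m : ℕ, g (2 * (j.val + 3 * m))) =
      (∑' m : ℕ, g (2 * (0 + 3 * m))) + (∑' m : ℕ, g (2 * (1 + 3 * m))) +
        ∑' m : ℕ, g (2 * (2 + 3 * m)) := by
    exact Fin.sum_univ_three (fun j : Fin 3 => ∑' m : ℕ, g (2 * ((j : ZMod 3).val + 3 * m)))
  rw [e3, hsum] at hres
  have hA : Summable (fun m : ℕ => g (2 * (0 + 3 * m))) :=
    he.comp_injective (fun a b h => by simpa using h)
  have hC : Summable (fun m : ℕ => g (2 * (2 + 3 * m))) :=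
    he.comp_injective (fun a b h => by simpa using h)
  have hB0 : (∑' m : ℕ, g (2 * (1 + 3 * m))) = 0 := by
    have : (fun m : ℕ => g (2 * (1 + 3 * m))) = fun _ => 0 := by
      funext m
      unfold g
      rw [chi_three]
      simp
    rw [this, tsum_zero]
  rw [hB0, add_zero] at hres
  have h3 : Real.sqrt 3 ^ 2 = 3 := Real.sq_sqrt (by norm_num)
  have h3p : 0 < Real.sqrt 3 := Real.sqrt_pos.mpr (by norm_num)
  have hval : Real.sqrt 3 * Real.pi ^ 3 / 54 = 9 / 8 * L := by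
    rw [hL]
    field_simp
    rw [h3]
    ring
  unfold G_Z3
  rw [hval, hres]
  have fA : HasSum (fun n : ℕ => (fun j : ℤ => 1 / (6 * (j:ℝ) + 1) ^ 3) (n : ℤ))
      (∑' m : ℕ, g (2 * (0 + 3 * m))) := by
    have e : (fun n : ℕ => (fun j : ℤ => 1 / (6 * (j:ℝ) + 1) ^ 3) (n : ℤ)) =
        fun m : ℕ => g (2 * (0 + 3 * m)) := by
      funext m
      unfold g
      rw [zero_add, chi_one]
      push_cast
      ring
    rw [e]
    exact hA.hasSum
  have fC : HasSum (fun n : ℕ => (fun j : ℤ => 1 / (6 * (j:ℝ) + 1) ^ 3) (-((n : ℤ) + 1)))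
      (∑' m : ℕ, g (2 * (2 + 3 * m))) := by
    have e : (fun n : ℕ => (fun j : ℤ => 1 / (6 * (j:ℝ) + 1) ^ 3) (-((n : ℤ) + 1))) =
        fun m : ℕ => g (2 * (2 + 3 * m)) := by
      funext m
      unfold g
      rw [chi_five]
      push_cast
      have h5 : (6 * -((m:ℝ) + 1) + 1) = -(6 * m + 5) := by ring
      have h5' : (2 * (2 + 3 * (m:ℝ)) + 1) = 6 * m + 5 := by ring
      rw [h5, h5']
      have : (6 * (m:ℝ) + 5) ≠ 0 := by positivity
      have h6 : (-(6 * (m:ℝ) + 5)) ^ 3 = -((6 * (m:ℝ) + 5) ^ 3) := by ring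
      rw [h6]
      rw [div_neg, neg_div]
    rw [e]
    exact hC.hasSum
  exact HasSum.of_nat_of_neg_add_one fA fC

end EC237.PF.PkZ3
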